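import Pool.Agent.Y957.AD.UC

/-!
# Möbius disjointness for almost every member of a one-parameter group of automorphisms

Let `σ` be a strongly continuous one-parameter group of *-automorphisms of an arbitrary C*-algebra `W`
(not necessarily exact, any entropy), let `ρ` be a bounded functional, for example a state, and let `S` be
a separable subset of `W`, for example one element.  For Lebesgue almost every real `t` the automorphism
`σ t` satisfies, for all elements `u` of `S` at once,

* `(1 / log N) ∑_{n ≤ N} μ(n) ρ((σ t)^n u) / n` tends to `0`;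
* more strongly, the Cesàro averages `(1 / M) ∑_{n ≤ M} μ(n) ρ((σ t)^n u)` tend to `0` along almost all
  scales: the logarithmic averages of their absolute values tend to `0`.
-/

set_option autoImplicit false

namespace Pool.Agent.Results.MP_7a8f48_an.AlmostEveryTime

open Filter Topology MeasureTheory

/-- one-parameter group of *-automorphisms with norm continuous orbits -/
structure OneParameterGroup {W : Type} [NonUnitalCStarAlgebra W] (σ : ℝ → (W ≃⋆ₐ[ℂ] W)) : Prop where
  add : ∀ (s t : ℝ) (u : W), σ (s + t) u = σ s (σ t u)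
  continuous : ∀ u : W, Continuous fun t => σ t u

theorem OneParameterGroup.zero {W : Type} [NonUnitalCStarAlgebra W] {σ : ℝ → (W ≃⋆ₐ[ℂ] W)}
    (h : OneParameterGroup σ) (u : W) : σ 0 u = u := by
  have h1 := h.add 0 0 u
  rw [add_zero] at h1
  exact ((σ 0).injective h1).symm

theorem OneParameterGroup.iter {W : Type} [NonUnitalCStarAlgebra W] {σ : ℝ → (W ≃⋆ₐ[ℂ] W)}
    (h : OneParameterGroup σ) (t : ℝ) (u : W) (n : ℕ) : (σ t)^[n] u = σ (t * n) u := by
  induction n with
  | zero => simp [h.zero]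
  | succ n ih =>
    rw [Function.iterate_succ_apply', ih, ← h.add]
    congr 2
    push_cast
    ring

theorem norm_sigma {W : Type} [NonUnitalCStarAlgebra W] (f : W ≃⋆ₐ[ℂ] W) (u : W) : ‖f u‖ = ‖u‖ :=
  StarAlgEquiv.norm_map f u

theorem result (W : Type) [NonUnitalCStarAlgebra W] (σ : ℝ → (W ≃⋆ₐ[ℂ] W)) (hσ : OneParameterGroup σ)
    (ρ : W →L[ℂ] ℂ) (S : Set W) (hS : TopologicalSpace.IsSeparable S) :
    ∀ᵐ t : ℝ, ∀ u ∈ S,
      Tendsto
        (fun N : ℕ =>
          (1 / (Real.log (N : ℝ) : ℂ)) *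
            ∑ n ∈ Finset.Icc 1 N, ((ArithmeticFunction.moebius n : ℤ) : ℂ) * ρ ((σ t)^[n] u) / (n : ℂ))
        atTop (𝓝 0) ∧
      Tendsto
        (fun N : ℕ =>
          (1 / Real.log (N : ℝ)) *
            ∑ M ∈ Finset.Icc 1 N,
              ‖(1 / (M : ℂ)) * ∑ n ∈ Finset.Icc 1 M,
                ((ArithmeticFunction.moebius n : ℤ) : ℂ) * ρ ((σ t)^[n] u)‖ / (M : ℝ))
        atTop (𝓝 0) := by
  have hmain := Pool.Agent.Y957.AD.ae_family (fun (u : W) (t : ℝ) => ρ (σ t u)) ‖ρ‖
    (fun u v t => by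
      rw [← map_sub, ← map_sub]
      refine (ρ.le_opNorm _).trans ?_
      rw [norm_sigma])
    (fun t => by simp)
    (fun u ε hε => by
      have h1 : Tendsto (fun s : ℝ => ‖ρ‖ * ‖σ s u - u‖) (𝓝 0) (𝓝 (‖ρ‖ * ‖σ 0 u - u‖)) :=
        ((((hσ.continuous u).sub continuous_const).norm).const_mul ‖ρ‖).tendsto 0
      rw [hσ.zero, sub_self, norm_zero, mul_zero] at h1
      obtain ⟨δ, hδ, h2⟩ := Metric.eventually_nhds_iff.1 (h1.eventually (gt_mem_nhds hε))
      refine ⟨δ, hδ, fun t s hs hsδ => ?_⟩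
      have h3 := h2 (y := s) (by rw [Real.dist_eq, sub_zero, abs_of_nonneg hs]; exact hsδ)
      rw [hσ.add, ← map_sub, ← map_sub]
      refine (ρ.le_opNorm _).trans ?_
      rw [norm_sigma]
      exact h3.le) S hS
  filter_upwards [hmain] with t ht u hu
  have h1 := ht u hu
  have h2 := Pool.Agent.Y950.AD.logAv (fun s => ρ (σ s u)) (‖ρ‖ * ‖u‖) (fun s => by
    refine (ρ.le_opNorm _).trans ?_
    rw [norm_sigma]) t h1
  constructor
  · unfold Pool.Agent.Y957.AD.LogAv at h2
    refine h2.congr fun N => ?_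
    refine congrArg _ (Finset.sum_congr rfl fun n _ => ?_)
    rw [hσ.iter]
    rfl
  · unfold Pool.Agent.Y957.AD.AlmostScales Pool.Agent.Y957.AD.SA at h1
    refine h1.congr fun N => ?_
    refine congrArg _ (Finset.sum_congr rfl fun M _ => ?_)
    refine congrArg (fun z : ℂ => ‖(1 / (M : ℂ)) * z‖ / (M : ℝ)) (Finset.sum_congr rfl fun n _ => ?_)
    rw [hσ.iter]
    rfl

end Pool.Agent.Results.MP_7a8f48_an.AlmostEveryTime
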