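import Pool.Agent.Y957.AD.Fin

/-!
The conclusion of the logarithmically averaged Sarnak conjecture for almost every time map of every
continuous flow.

Let `φ` be a continuous action of the real numbers on a compact metric space `X` (no assumption on the
entropy) and let `x` be a point of `X`.  For Lebesgue almost every real `α` the transformation
`T = φ α` satisfies, for all continuous functions `f` at once,

* `(1 / log N) ∑_{n ≤ N} f (T^n x) μ(n) / n` tends to `0`;
* more strongly, the Cesàro averages `(1 / M) ∑_{n ≤ M} f (T^n x) μ(n)` tend to `0` along almost all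
  scales: the logarithmic averages of their absolute values tend to `0`.
-/

set_option autoImplicit false

namespace Pool.Agent.Results.MP_3e612f_nt.AlmostEveryTimeMap

open Filter Topology

theorem iter_flow {X : Type} [MetricSpace X] (φ : Flow ℝ X) (α : ℝ) (x : X) (n : ℕ) :
    (φ α)^[n] x = φ (α * n) x := by
  induction n with
  | zero => simp
  | succ n ih =>
    rw [Function.iterate_succ_apply', ih, ← φ.map_add]
    congr 1
    push_cast
    ring

theorem result (X : Type) [MetricSpace X] [CompactSpace X] (φ : Flow ℝ X) (x : X) :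
    ∀ᵐ α : ℝ, ∀ f : C(X, ℂ),
      Tendsto
        (fun N : ℕ =>
          (1 / (Real.log (N : ℝ) : ℂ)) *
            ∑ n ∈ Finset.Icc 1 N, f ((φ α)^[n] x) * ((ArithmeticFunction.moebius n : ℤ) : ℂ) / (n : ℂ))
        atTop (𝓝 0) ∧
      Tendsto
        (fun N : ℕ =>
          (1 / Real.log (N : ℝ)) *
            ∑ M ∈ Finset.Icc 1 N,
              ‖(1 / (M : ℂ)) * ∑ n ∈ Finset.Icc 1 M,
                f ((φ α)^[n] x) * ((ArithmeticFunction.moebius n : ℤ) : ℂ)‖ / (M : ℝ))
        atTop (𝓝 0) := by
  filter_upwards [Pool.Agent.Y957.AD.flow_all X φ x] with α hα f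
  obtain ⟨h1, h2⟩ := hα f
  constructor
  · unfold Pool.Agent.Y957.AD.LogAv at h2
    refine h2.congr fun N => ?_
    refine congrArg _ (Finset.sum_congr rfl fun n _ => ?_)
    rw [iter_flow]
    unfold Pool.Agent.Y957.AD.mu
    ring
  · unfold Pool.Agent.Y957.AD.AlmostScales Pool.Agent.Y957.AD.SA at h1
    refine h1.congr fun N => ?_
    refine congrArg _ (Finset.sum_congr rfl fun M _ => ?_)
    refine congrArg (fun z : ℂ => ‖(1 / (M : ℂ)) * z‖ / (M : ℝ)) (Finset.sum_congr rfl fun n _ => ?_)
    rw [iter_flow]
    unfold Pool.Agent.Y957.AD.mu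
    ring

end Pool.Agent.Results.MP_3e612f_nt.AlmostEveryTimeMap
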